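import Mathlib
import Pool.Agent.Work.MP_38c61c_al.FlipChar2

/-!
The quadratic criterion for flips and the main theorem in characteristic 2 for every dimension.
-/

namespace CSLef

open MvPolynomial Finset

variable {V : Type} [Fintype V] [DecidableEq V]

/-- polynomials of degree at most two interpolate on the flip sets of each face with exactly
`d / 2 + 1` vertices -/
def CondQuad (Δ : Finset (Finset V)) (α : Equiv.Perm V) (d : ℕ) : Prop :=
  ∀ G ∈ Δ, G.card = d / 2 + 1 → ∀ 𝓣 : Finset (Finset V),
    (∀ T ∈ 𝓣, T ⊆ G ∧ flip α G T ∈ Δ) → Even 𝓣.card →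
    (∀ u ∈ G, Even (𝓣.filter (fun T => u ∈ T)).card) →
    (∀ u ∈ G, ∀ u' ∈ G, Even (𝓣.filter (fun T => u ∈ T ∧ u' ∈ T)).card) → 𝓣 = ∅

section expand

variable {F : Type*} [CommRing F] {Δ : Finset (Finset V)} {α : Equiv.Perm V}

theorem prod_flip' (hα : IsCS Δ α) {G : Finset V} (hG : G ∈ Δ) {T : Finset V} (hT : T ⊆ G) :
    (((∏ i ∈ T, X (α i)) * ∏ i ∈ G \ T, X i) : MvPolynomial V F) = xm F (flip α G T) := by
  have hdisj : Disjoint (G \ T) (T.image α) := by
    rw [Finset.disjoint_left]
    intro x hx hx'
    rw [Finset.mem_image] at hx'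
    obtain ⟨y, hy, rfl⟩ := hx'
    exact hα.no_pair G hG y (hT hy) (Finset.mem_sdiff.mp hx).1
  unfold xm flip
  rw [Finset.prod_union hdisj, Finset.prod_image (fun a _ b _ hab => α.injective hab)]
  ring

theorem expand_gen (hα : IsCS Δ α) {G : Finset V} (hG : G ∈ Δ) {S : Finset V} (hS : S ⊆ G) :
    (∏ i ∈ S, X (α i)) * ∏ i ∈ G \ S, yy F α i =
      ∑ T ∈ G.powerset.filter (fun T => S ⊆ T), xm F (flip α G T) := by
  have h1 : (∏ i ∈ S, X (α i)) * ∏ i ∈ G \ S, yy F α i =
      ∏ i ∈ G, ((X (α i) : MvPolynomial V F) + if i ∈ S then 0 else X i) := by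
    rw [← Finset.prod_sdiff hS, mul_comm]
    congr 1
    · apply Finset.prod_congr rfl
      intro i hi
      rw [if_neg (Finset.mem_sdiff.mp hi).2]
      unfold yy
      ring
    · apply Finset.prod_congr rfl
      intro i hi
      rw [if_pos hi, add_zero]
  rw [h1, Finset.prod_add, Finset.sum_filter]
  apply Finset.sum_congr rfl
  intro T hT
  rw [Finset.mem_powerset] at hT
  split_ifs with hST
  · rw [← prod_flip' hα hG hT]
    congr 1
    apply Finset.prod_congr rfl
    intro i hi
    rw [if_neg (fun h => (Finset.mem_sdiff.mp hi).2 (hST h))]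
  · obtain ⟨u, huS, huT⟩ := Finset.not_subset.mp hST
    rw [Finset.prod_eq_zero (i := u) (Finset.mem_sdiff.mpr ⟨hS huS, huT⟩) (by rw [if_pos huS]),
      mul_zero]

end expand

section final

variable {F : Type*} [Field F] [CharP F 2] {Δ : Finset (Finset V)} {d : ℕ} {α : Equiv.Perm V}
  {VP : Finset V} {p : ℕ → V ⊕ Bool → F} {D : ℕ → V ⊕ Bool → Derivation ℤ F F}
  {μ : ℕ → F} {c : V → F} {Dm : ℕ → Derivation ℤ F F} {Dc : V → Derivation ℤ F F}

/-- combinatorial conclusion from the relations: the quadratic criterion -/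
theorem quad_zero {G : Finset V} (γ : Finset V → F)
    (h0 : ∀ T ⊆ G, flip α G T ∉ Δ → γ T = 0)
    (hq : ∀ 𝓣 : Finset (Finset V), (∀ T ∈ 𝓣, T ⊆ G ∧ flip α G T ∈ Δ) → Even 𝓣.card →
      (∀ u ∈ G, Even (𝓣.filter (fun T => u ∈ T)).card) →
      (∀ u ∈ G, ∀ u' ∈ G, Even (𝓣.filter (fun T => u ∈ T ∧ u' ∈ T)).card) → 𝓣 = ∅)
    (ha : ∑ T ∈ G.powerset, γ T = 0)
    (hb : ∀ u ∈ G, ∑ T ∈ G.powerset.filter (fun T => u ∈ T), γ T = 0)
    (hc : ∀ u ∈ G, ∀ u' ∈ G, ∑ T ∈ G.powerset.filter (fun T => u ∈ T ∧ u' ∈ T), γ T = 0) :
    γ ∅ = 0 := by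
  classical
  let _ : Algebra (ZMod 2) F := ZMod.algebra F 2
  let B := Module.Basis.ofVectorSpace (ZMod 2) F
  apply B.repr.injective
  rw [map_zero]
  ext i
  rw [Finsupp.zero_apply]
  by_contra hne
  have hz2 : ∀ z : ZMod 2, z ≠ 0 → z = 1 := by decide
  set lam : F → ZMod 2 := fun x => B.repr x i with hlam
  have hlam_sum : ∀ (I : Finset (Finset V)), lam (∑ T ∈ I, γ T) = ∑ T ∈ I, lam (γ T) := by
    intro I
    simp [hlam, map_sum, Finsupp.finsetSum_apply]
  have hlam0 : lam 0 = 0 := by simp [hlam]
  set 𝓣 := G.powerset.filter (fun T => lam (γ T) ≠ 0) with h𝓣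
  have hcount : ∀ I : Finset (Finset V), (∑ T ∈ I, lam (γ T)) =
      ((I.filter (fun T => lam (γ T) ≠ 0)).card : ZMod 2) := by
    intro I
    rw [← Finset.sum_filter_ne_zero, Finset.sum_congr rfl (fun T hT => hz2 _
      (Finset.mem_filter.mp hT).2)]
    simp
  have heven : ∀ n : ℕ, (n : ZMod 2) = 0 → Even n := by
    intro n hn
    exact (ZMod.natCast_eq_zero_iff_even).mp hn
  have hempty : 𝓣 = ∅ := by
    apply hq
    · intro T hT
      rw [h𝓣, Finset.mem_filter, Finset.mem_powerset] at hT
      refine ⟨hT.1, ?_⟩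
      by_contra h
      apply hT.2
      rw [h0 T hT.1 h, hlam0]
    · apply heven
      rw [h𝓣, ← hcount, ← hlam_sum, ha, hlam0]
    · intro u hu
      apply heven
      have : 𝓣.filter (fun T => u ∈ T) =
          (G.powerset.filter (fun T => u ∈ T)).filter (fun T => lam (γ T) ≠ 0) := by
        rw [h𝓣, Finset.filter_comm]
      rw [this, ← hcount, ← hlam_sum, hb u hu, hlam0]
    · intro u hu u' hu'
      apply heven
      have : 𝓣.filter (fun T => u ∈ T ∧ u' ∈ T) =
          (G.powerset.filter (fun T => u ∈ T ∧ u' ∈ T)).filter (fun T => lam (γ T) ≠ 0) := by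
        rw [h𝓣, Finset.filter_comm]
      rw [this, ← hcount, ← hlam_sum, hc u hu u' hu', hlam0]
  have hmem : ∅ ∈ 𝓣 := by
    rw [h𝓣, Finset.mem_filter]
    exact ⟨Finset.empty_mem_powerset _, hne⟩
  rw [hempty] at hmem
  exact Finset.notMem_empty _ hmem

variable (S : Setup Δ d α VP p D μ c Dm Dc)

include S

/-- conclusion of one step from the quadratic criterion -/
theorem conclude_q (hd : 1 ≤ d) {r e : ℕ} (hr : e + e + r = d) (hr1 : 1 ≤ r)
    {X' : MvPolynomial V F} (hX' : X'.IsHomogeneous e) (hflip : CondQuad Δ α d)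
    (hrel : ∀ vs gs : List V, vs.length ≤ max 2 r → gs.length + vs.length + e = d →
      piF Δ d p D ((vs.map X).prod * (gs.map (yy F α)).prod * X') = 0) :
    X' ∈ Jid Δ (rows p) d := by
  apply nondeg_pi S hd (k := d - e) (by omega) hX'
  intro G' hG' hcard'
  obtain ⟨G, hGG', hcard⟩ : ∃ G ⊆ G', G.card = d / 2 + 1 :=
    Finset.exists_subset_card_eq (by omega)
  have hG : G ∈ Δ := S.hs.down G' hG' G hGG'
  have h0 : ∀ T ⊆ G, flip α G T ∉ Δ →
      piF Δ d p D (xm F (G' \ G) * xm F (flip α G T) * X') = 0 := by
    intro T _ hT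
    exact piF_sr S.cols S.cs S.hs.down
      (Ideal.mul_mem_right _ _ (Ideal.mul_mem_left _ _ (xm_mem_sr hT)))
  have hsum : ∀ Q : Finset V, Q ⊆ G → Q.card ≤ 2 →
      ∑ T ∈ G.powerset.filter (fun T => Q ⊆ T),
        piF Δ d p D (xm F (G' \ G) * xm F (flip α G T) * X') = 0 := by
    intro Q hQ hQ2
    have hQG : Q.card ≤ G.card := Finset.card_le_card hQ
    have hc1 : (G' \ G).card = G'.card - G.card := Finset.card_sdiff_of_subset hGG'
    have hc2 : (G \ Q).card = G.card - Q.card := Finset.card_sdiff_of_subset hQ
    have hc3 : G.card ≤ G'.card := Finset.card_le_card hGG'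
    have h1 := hrel ((G' \ G).toList ++ Q.toList.map α) (G \ Q).toList (by
      rw [List.length_append, List.length_map, Finset.length_toList, Finset.length_toList, hc1]
      omega) (by
      rw [List.length_append, List.length_map, Finset.length_toList, Finset.length_toList,
        Finset.length_toList, hc1, hc2]
      omega)
    have h2 : (((G' \ G).toList ++ Q.toList.map α).map (X : V → MvPolynomial V F)).prod =
        xm F (G' \ G) * ∏ i ∈ Q, X (α i) := by
      rw [List.map_append, List.prod_append, Finset.prod_map_toList, List.map_map,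
        Finset.prod_map_toList]
      rfl
    rw [h2, Finset.prod_map_toList, mul_assoc (xm F (G' \ G)), expand_gen S.cs hG hQ,
      Finset.mul_sum, Finset.sum_mul, map_sum] at h1
    exact h1
  have h2 := quad_zero (fun T => piF Δ d p D (xm F (G' \ G) * xm F (flip α G T) * X')) h0
    (hflip G hG hcard) (by
      have h1 := hsum ∅ (Finset.empty_subset _) (by simp)
      simp only [Finset.empty_subset, Finset.filter_true] at h1
      exact h1) (by
      intro u hu
      have h1 := hsum {u} (Finset.singleton_subset_iff.mpr hu) (by simp)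
      simp only [Finset.singleton_subset_iff] at h1
      exact h1) (by
      intro u hu u' hu'
      have h1 := hsum {u, u'} (by
          intro x hx
          rw [Finset.mem_insert, Finset.mem_singleton] at hx
          rcases hx with rfl | rfl
          · exact hu
          · exact hu') Finset.card_le_two
      simp only [Finset.insert_subset_iff, Finset.singleton_subset_iff] at h1
      exact h1)
  simp only [flip_empty] at h2
  have h3 : xm F (G' \ G) * xm F G = xm F G' := by
    unfold xm
    rw [Finset.prod_sdiff hGG']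
  rwa [h3] at h2

omit S in
theorem XXlist (S : Setup Δ d α VP p D μ c Dm Dc) (L : List V) :
    (L.map (yy F α)).prod * (L.map X).prod - ((L.map X).prod) ^ 2 ∈ srIdeal F Δ := by
  induction L with
  | nil => simp
  | cons v L ih =>
    rw [List.map_cons, List.prod_cons, List.map_cons, List.prod_cons]
    have h1 := mul_sub_mem (Xyy S v) ih
    convert h1 using 1
    ring

omit [CharP F 2] S in
theorem Con.listX (L : List V) :
    Con ((L.map (MvPolynomial.X : V → MvPolynomial V F)).prod) := by
  induction L with
  | nil => exact Con.one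
  | cons v L ih => rw [List.map_cons, List.prod_cons]; exact (Con.X v).mul ih

omit [CharP F 2] S in
theorem listX_hom (L : List V) :
    ((L.map (X : V → MvPolynomial V F)).prod).IsHomogeneous L.length := by
  induction L with
  | nil => exact isHomogeneous_one _ _
  | cons v L ih =>
    rw [List.map_cons, List.prod_cons, List.length_cons, add_comm]
    exact (isHomogeneous_X F v).mul ih

/-- relations with fewer than `r` variables -/
theorem rel_list {r e : ℕ} (hr : e + e + r = d) {X' : MvPolynomial V F}
    (hX2 : ∀ u, ∀ g : MvPolynomial V F, Con g → g.IsHomogeneous (r - 1) →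
      piF Δ d p D (yy F α u * (g * X' ^ 2)) = 0)
    (vs gs : List V) (hvs : vs.length < r) (hgs : gs.length + vs.length + e = d) :
    piF Δ d p D ((vs.map X).prod * (gs.map (yy F α)).prod * X') = 0 := by
  set P := (gs.map (yy F α)).prod with hP
  set Q : MvPolynomial V F := (vs.map X).prod with hQ
  have hfull : ((vs ++ (gs ++ gs)).map (yy F α)).prod = (vs.map (yy F α)).prod * P ^ 2 := by
    rw [List.map_append, List.prod_append, list_sq]
  have hlen : (vs ++ (gs ++ gs)).length = d + (r - vs.length) := by
    rw [List.length_append, List.length_append]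
    omega
  have hZ : ((vs.map (yy F α)).prod * P ^ 2) * (Q * X' ^ 2) - (Q * P * X') ^ 2 ∈
      srIdeal F Δ := by
    have : ((vs.map (yy F α)).prod * P ^ 2) * (Q * X' ^ 2) - (Q * P * X') ^ 2 =
      (P ^ 2 * X' ^ 2) * ((vs.map (yy F α)).prod * Q - Q ^ 2) := by ring
    rw [this]
    exact Ideal.mul_mem_left _ _ (XXlist S vs)
  have hsplit := List.take_append_drop d (vs ++ (gs ++ gs))
  have hdl : ((vs ++ (gs ++ gs)).drop d).length = r - vs.length := by
    rw [List.length_drop, hlen]; omega
  have htl : ((vs ++ (gs ++ gs)).take d).length = d := by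
    rw [List.length_take, hlen]; omega
  rcases hdrop : (vs ++ (gs ++ gs)).drop d with _ | ⟨u, rest⟩
  · rw [hdrop] at hdl
    simp at hdl
    omega
  rw [hdrop] at hsplit hdl
  rw [List.length_cons] at hdl
  have h1 : piF Δ d p D (yy F α u * ((Q * (rest.map (yy F α)).prod) * X' ^ 2)) = 0 := by
    apply hX2
    · exact (Con.listX vs).mul (Con.listprod rest)
    · have := (listX_hom (F := F) vs).mul (list_hom (F := F) (α := α) rest)
      convert this using 1
      omega
  apply PP S _ htl ((Con.yy u).mul (((Con.listX vs).mul (Con.listprod rest)).mul (Con.sq X'))) h1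
  have h2 : (List.map (yy F α) (List.take d (vs ++ (gs ++ gs)))).prod *
      (yy F α u * (Q * (List.map (yy F α) rest).prod * X' ^ 2)) =
      ((vs.map (yy F α)).prod * P ^ 2) * (Q * X' ^ 2) := by
    rw [← hfull, ← hsplit, List.map_append, List.prod_append, List.map_cons, List.prod_cons,
      hsplit]
    ring
  rw [h2]
  exact hZ

/-- relations with exactly `r ≥ 2` variables -/
theorem rel_top {r e : ℕ} (hr : e + e + r = d) (hr2 : 2 ≤ r) {X' : MvPolynomial V F}
    (hE : ∀ v (vs : List V), vs.length + 2 = r → ∑ v' ∈ VP, p 0 (Sum.inl v') *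
      piF Δ d p D (X v' * (X v * (vs.map X).prod * X' ^ 2)) = 0)
    (ha : ∀ vs gs : List V, vs.length + 1 = r → gs.length + vs.length + e = d →
      piF Δ d p D ((vs.map X).prod * (gs.map (yy F α)).prod * X') = 0)
    (v u' : V) (vs gs : List V) (hvs : vs.length + 2 = r)
    (hgs : gs.length + (vs.length + 2) + e = d) :
    piF Δ d p D (X v * X u' * (vs.map X).prod * (gs.map (yy F α)).prod * X') = 0 := by
  have htwo : (2 : MvPolynomial V F) = 0 := by
    have h := CharP.cast_eq_zero F 2
    have h2 := congrArg (C : F → MvPolynomial V F) h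
    rw [map_natCast, map_zero] at h2
    exact_mod_cast h2
  set P := (gs.map (yy F α)).prod with hP
  set Q : MvPolynomial V F := (vs.map X).prod with hQ
  -- both signs are equivalent
  have hsum : ∀ u, piF Δ d p D (X v * X u * Q * P * X') =
      piF Δ d p D (X v * X (α u) * Q * P * X') := by
    intro u
    have h1 := ha (v :: vs) (u :: gs) (by rw [List.length_cons]; omega)
      (by rw [List.length_cons, List.length_cons]; omega)
    rw [List.map_cons, List.prod_cons, List.map_cons, List.prod_cons, ← hP, ← hQ] at h1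
    have h2 : X v * Q * (yy F α u * P) * X' =
        X v * X u * Q * P * X' + X v * X (α u) * Q * P * X' := by
      unfold yy; ring
    rw [h2, map_add] at h1
    exact CharTwo.add_eq_zero.mp h1
  have key : ∀ u ∈ VP, piF Δ d p D (X v * X u * Q * P * X') = 0 := by
    intro u hu
    obtain ⟨d', hd'⟩ : ∃ d', d = d' + 1 := ⟨d - 1, by omega⟩
    have hlen : (u :: (vs ++ (gs ++ gs))).length = d' := by
      rw [List.length_cons, List.length_append, List.length_append]; omega
    have hfull : ((u :: (vs ++ (gs ++ gs))).map (yy F α)).prod =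
        yy F α u * ((vs.map (yy F α)).prod * P ^ 2) := by
      rw [List.map_cons, List.prod_cons, List.map_append, List.prod_append, list_sq]
    have hcon : Con (X v * Q * X' ^ 2) := ((Con.X v).mul (Con.listX vs)).mul (Con.sq X')
    have hmemQ := XXlist (F := F) S vs
    rw [← hQ] at hmemQ
    set Y := (vs.map (yy F α)).prod with hY
    have fin : ∀ (w : V) (Z : MvPolynomial V F), w ∈ VP →
        (yy F α u * (Y * P ^ 2)) * ((yy F α u * X w + yy F α w * X u) * (X v * Q * X' ^ 2)) -
          Z ^ 2 ∈ srIdeal F Δ → piF Δ d p D Z = 0 := by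
      intro w Z hw hZ
      have h1 := rel3 S hcon hd' (hE v vs hvs) hu hw _ hlen
      rw [hfull] at h1
      have h2 := piF_sr S.cols S.cs S.hs.down hZ
      rw [map_sub, sub_eq_zero] at h2
      rw [h2, CC_piF_sq S.cols S.cs] at h1
      exact pow_eq_zero_iff (two_ne_zero) |>.mp h1
    by_cases hv : v ∈ VP
    · rw [hsum]
      apply fin v _ hv
      have hmem := mul_sub_mem (mul_sub_mem (Xyy S u) (Xyy S v)) hmemQ
      have hmem2 := Ideal.mul_mem_left _ (yy F α u ^ 2 * X v ^ 2) hmemQ
      have h3 : (yy F α u * (Y * P ^ 2)) *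
          ((yy F α u * X v + yy F α v * X u) * (X v * Q * X' ^ 2)) -
          (X v * X (α u) * Q * P * X') ^ 2 =
          (P ^ 2 * X' ^ 2) * (yy F α u * X u * (yy F α v * X v) * (Y * Q) -
            X u ^ 2 * X v ^ 2 * Q ^ 2) +
          (P ^ 2 * X' ^ 2) * (yy F α u ^ 2 * X v ^ 2 * (Y * Q - Q ^ 2)) +
          2 * ((P ^ 2 * X' ^ 2) * (X u ^ 2 * X v ^ 2 + X u * X (α u) * X v ^ 2) * Q ^ 2) := by
        unfold yy; ring
      rw [h3, htwo, zero_mul, add_zero]
      exact Ideal.add_mem _ (Ideal.mul_mem_left _ _ hmem) (Ideal.mul_mem_left _ _ hmem2)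
    · have hw : α v ∈ VP := by
        by_contra h'
        exact hv ((S.vp v).mpr h')
      apply fin (α v) _ hw
      have hmem := mul_sub_mem (mul_sub_mem (Xyy S u) (Xyy S v)) hmemQ
      have hmem2 := pair_mem_sr (F := F) S v
      have h3 : (yy F α u * (Y * P ^ 2)) * ((yy F α u * X (α v) + yy F α (α v) * X u) *
          (X v * Q * X' ^ 2)) - (X v * X u * Q * P * X') ^ 2 =
          (P ^ 2 * X' ^ 2) * (yy F α u * X u * (yy F α v * X v) * (Y * Q) -
            X u ^ 2 * X v ^ 2 * Q ^ 2) +
          (P ^ 2 * X' ^ 2 * yy F α u ^ 2 * Y * Q) * (X v * X (α v)) := by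
        unfold yy
        rw [S.cs.invol]
        ring
      rw [h3]
      exact Ideal.add_mem _ (Ideal.mul_mem_left _ _ hmem) (Ideal.mul_mem_left _ _ hmem2)
  by_cases hu' : u' ∈ VP
  · exact key u' hu'
  · have hw : α u' ∈ VP := by
      by_contra h'
      exact hu' ((S.vp u').mpr h')
    rw [hsum]
    exact key _ hw

/-- all relations with at most `r ≥ 2` variables -/
theorem rel_le {r e : ℕ} (hr : e + e + r = d) (hr2 : 2 ≤ r) {X' : MvPolynomial V F}
    (hX2 : ∀ u, ∀ g : MvPolynomial V F, Con g → g.IsHomogeneous (r - 1) →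
      piF Δ d p D (yy F α u * (g * X' ^ 2)) = 0)
    (hE : ∀ v (vs : List V), vs.length + 2 = r → ∑ v' ∈ VP, p 0 (Sum.inl v') *
      piF Δ d p D (X v' * (X v * (vs.map X).prod * X' ^ 2)) = 0)
    (vs gs : List V) (hvs : vs.length ≤ r) (hgs : gs.length + vs.length + e = d) :
    piF Δ d p D ((vs.map X).prod * (gs.map (yy F α)).prod * X') = 0 := by
  rcases Nat.lt_or_ge vs.length r with h | h
  · exact rel_list S hr hX2 vs gs h hgs
  · rcases vs with _ | ⟨v, _ | ⟨u, vs⟩⟩
    · simp at h; omega
    · simp at h; omega
    · simp only [List.length_cons] at hvs h hgs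
      have h1 := rel_top S hr hr2 hE (fun vs gs h1 h2 => rel_list S hr hX2 vs gs (by omega) h2)
        v u vs gs (by omega) (by omega)
      rw [List.map_cons, List.prod_cons, List.map_cons, List.prod_cons, ← mul_assoc (X v)]
      exact h1

/-- iterating the first identity, with one additional derivative -/
theorem CC_pi_T (l : ℕ) (L : List ℕ) : ∀ (vs : List V), L.length = vs.length →
    ∀ g : MvPolynomial V F, Con g → D l tau (piF Δ d p D g) = 0 →
      CC (TT D tau) (l :: L) (piF Δ d p D ((vs.map (yy F α)).prod * g)) = 0 := by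
  induction L with
  | nil =>
    intro vs hvs g _ h0
    have : vs = [] := List.eq_nil_of_length_eq_zero hvs.symm
    subst this
    rw [List.map_nil, List.prod_nil, one_mul, CC_cons, CC_nil]
    exact h0
  | cons l' L ih =>
    intro vs hvs g hg h0
    rcases vs with _ | ⟨v, vs⟩
    · simp at hvs
    · rw [List.map_cons, List.prod_cons]
      have h1 := ih vs (by simpa using hvs) g hg h0
      have h2 := congrArg (D l' (Sum.inl v)) h1
      rw [map_zero] at h2
      have h3 := CC_comm (T := TT D tau) (fun x => D l' (Sum.inl v) x) (l :: L)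
        (fun l'' _ x => S.cols.comm l'' tau l' (Sum.inl v) x)
        (piF Δ d p D ((vs.map (yy F α)).prod * g))
      rw [h2, D_pi S l' v ((Con.listprod vs).mul hg)] at h3
      have h4 := CC_comm (T := TT D tau) (fun x => D l' tau x) (l :: L)
        (fun l'' _ x => S.cols.comm l'' tau l' tau x)
        (piF Δ d p D (yy F α v * ((vs.map (yy F α)).prod * g)))
      rw [h4] at h3
      rw [mul_assoc, CC_cons, CC_cons]
      rw [CC_cons] at h3
      rw [← h3]
      exact S.cols.comm l tau l' tau _

/-- relation of the second kind, for `r = 1` -/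
theorem rel_b1 {e : ℕ} (hr : e + e + 1 = d) {X' : MvPolynomial V F}
    (h1 : ∀ v, piF Δ d p D (X v * X' ^ 2) = 0)
    (hE : ∀ v, ∑ v' ∈ VP, p 0 (Sum.inl v') * piF Δ d p D (X v' * (X v * X' ^ 2)) = 0)
    (v u' : V) (gs : List V) (hgs : gs.length + 2 + e = d) :
    piF Δ d p D (X v * X u' * (gs.map (yy F α)).prod * X') = 0 := by
  have hd0 : 0 < d := by omega
  -- the derivative of the degree `d + 1` values vanishes
  have hVP : ∀ s ∈ VP, ∀ v, D 0 tau (piF Δ d p D (X s * (X v * X' ^ 2))) = 0 := by
    intro s hs v
    have hcon : Con (X v * X' ^ 2) := (Con.X v).mul (Con.sq X')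
    have h2 := rel3_aux S hcon hd0 (hE v) hs [] [] rfl List.not_mem_nil
    simp only [List.map_nil, List.prod_nil, one_mul, CC_nil, CC_cons] at h2
    have h3 := congrArg (D 0 tau) h2
    rw [map_zero, map_add, map_sum, Finset.sum_eq_zero, add_zero] at h3
    · exact h3
    · intro v' _
      rw [Derivation.leibniz, S.cols.D_p, if_neg (fun h => h.2.2), smul_zero, add_zero, smul_eq_mul]
      have h4 := Sq_piF S.cols S.cs (Δ := Δ) (yy F α s * (X v' * (X v * X' ^ 2)))
        (fun l => ((Con.yy s).mul ((Con.X v').mul hcon)) _) 0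
      change D 0 tau (D 0 tau (piF Δ d p D (yy F α s * (X v' * (X v * X' ^ 2))))) = 0 at h4
      change _ * D 0 tau (D 0 tau (piF Δ d p D (yy F α s * (X v' * (X v * X' ^ 2))))) = 0
      rw [h4, mul_zero]
  have hT : ∀ s v, D 0 tau (piF Δ d p D (X s * (X v * X' ^ 2))) = 0 := by
    intro s v
    by_cases hs : s ∈ VP
    · exact hVP s hs v
    · have hs' : α s ∈ VP := by
        by_contra h'
        exact hs ((S.vp s).mpr h')
      have h2 := D_pi S 0 s (f := X v * X' ^ 2) ((Con.X v).mul (Con.sq X'))
      rw [h1 v, map_zero] at h2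
      have h3 : yy F α s * (X v * X' ^ 2) =
          X s * (X v * X' ^ 2) + X (α s) * (X v * X' ^ 2) := by
        unfold yy; ring
      rw [h3, map_add, map_add, hVP _ hs' v, add_zero] at h2
      exact h2.symm
  set P := (gs.map (yy F α)).prod with hP
  have hfull : ((v :: u' :: (gs ++ gs)).map (yy F α)).prod = yy F α v * (yy F α u' * P ^ 2) := by
    rw [List.map_cons, List.prod_cons, List.map_cons, List.prod_cons, list_sq]
  obtain ⟨n, hn⟩ : ∃ n, d = n + 1 := ⟨d - 1, by omega⟩
  have hlen : ((List.range n).map Nat.succ).length = (v :: u' :: (gs ++ gs)).length := by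
    rw [List.length_map, List.length_range, List.length_cons, List.length_cons,
      List.length_append]
    omega
  have hcon : Con (X u' * (X v * X' ^ 2)) := (Con.X u').mul ((Con.X v).mul (Con.sq X'))
  have h2 := CC_pi_T S 0 ((List.range n).map Nat.succ) (v :: u' :: (gs ++ gs)) hlen
    (X u' * (X v * X' ^ 2)) hcon (hT u' v)
  have hrange : List.range d = 0 :: (List.range n).map Nat.succ := by
    rw [hn, List.range_succ_eq_map]
  rw [← hrange, hfull] at h2
  have hZ : (yy F α v * (yy F α u' * P ^ 2)) * (X u' * (X v * X' ^ 2)) -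
      (X v * X u' * P * X') ^ 2 ∈ srIdeal F Δ := by
    have : (yy F α v * (yy F α u' * P ^ 2)) * (X u' * (X v * X' ^ 2)) -
      (X v * X u' * P * X') ^ 2 =
      (P ^ 2 * X' ^ 2) * ((yy F α v * X v) * (yy F α u' * X u') - X v ^ 2 * X u' ^ 2) := by ring
    rw [this]
    exact Ideal.mul_mem_left _ _ (mul_sub_mem (Xyy S v) (Xyy S u'))
  have h3 := piF_sr S.cols S.cs S.hs.down hZ
  rw [map_sub, sub_eq_zero] at h3
  rw [h3, CC_piF_sq S.cols S.cs] at h2
  exact pow_eq_zero_iff (two_ne_zero) |>.mp h2

/-- The main theorem in characteristic 2, with the quadratic criterion, in every dimension. -/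
theorem char2_main_q (hd : 1 ≤ d) (hflip : CondQuad Δ α d)
    {i k : ℕ} (hik : i + i + (k + 1) = d) {x : MvPolynomial V F} (hx : x.IsHomogeneous i)
    (h : ∀ v, piF Δ d p D ((wel d α VP p μ c) ^ k * X v * x ^ 2) = 0)
    (h2 : Even k → ∀ v, piF Δ d p D ((wel d α VP p μ c) ^ (k + 1) * X v * x ^ 2) = 0) :
    x ∈ Jid Δ (rows p) d := by
  set w := wel d α VP p μ c with hw
  have hwh : w.IsHomogeneous 1 := wel_hom
  have hwm : ∀ m, (w ^ m * x).IsHomogeneous (m + i) := by
    intro m
    have := (hwh.pow m).mul hx
    rwa [one_mul] at this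
  have key : ∀ n m, m + n = k / 2 → w ^ m * x ∈ Jid Δ (rows p) d := by
    intro n
    induction n with
    | zero =>
      intro m hm
      rw [add_zero] at hm
      rcases Nat.even_or_odd k with hk | hk
      · -- `r = 1`
        have hk2 : k = m + m := by
          obtain ⟨t, ht⟩ := hk
          omega
        have hr : (m + i) + (m + i) + 1 = d := by omega
        have hX1 : ∀ v, piF Δ d p D (X v * (w ^ m * x) ^ 2) = 0 := by
          intro v
          have := h v
          rw [hk2] at this
          rw [← this]
          congr 1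
          ring
        have hwX : ∀ v, piF Δ d p D (w * (X v * (w ^ m * x) ^ 2)) = 0 := by
          intro v
          have := h2 hk v
          rw [hk2] at this
          rw [← this]
          congr 1
          ring
        have ha : ∀ v (gs : List V), gs.length + 1 + (m + i) = d →
            piF Δ d p D (X v * (gs.map (yy F α)).prod * (w ^ m * x)) = 0 := by
          intro v gs hgs
          exact rel_a S hr le_rfl (fun _ => hX1) (fun h2 => absurd h2 (by norm_num)) v gs hgs
        apply conclude_q S hd hr le_rfl (hwm m) hflip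
        intro vs gs hvs hgs
        rcases vs with _ | ⟨v, _ | ⟨u, vs⟩⟩
        · rcases gs with _ | ⟨v, gs⟩
          · simp at hgs; omega
          · simp only [List.length_cons, List.length_nil] at hgs
            have h3 := ha v gs (by omega)
            have h4 := ha (α v) gs (by omega)
            rw [List.map_nil, List.prod_nil, one_mul, List.map_cons, List.prod_cons]
            have h5 : yy F α v * (gs.map (yy F α)).prod * (w ^ m * x) =
                X v * (gs.map (yy F α)).prod * (w ^ m * x) +
                X (α v) * (gs.map (yy F α)).prod * (w ^ m * x) := by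
              unfold yy; ring
            rw [h5, map_add, h3, h4, add_zero]
        · simp only [List.length_cons, List.length_nil] at hgs
          rw [List.map_cons, List.prod_cons, List.map_nil, List.prod_nil, mul_one]
          exact ha v gs (by omega)
        · simp only [List.length_cons] at hgs hvs
          have hvs0 : vs = [] := List.eq_nil_of_length_eq_zero (by omega)
          subst hvs0
          rw [List.map_cons, List.prod_cons, List.map_cons, List.prod_cons, List.map_nil,
            List.prod_nil, mul_one]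
          apply rel_b1 S hr hX1 _ v u gs (by simp only [List.length_nil] at hgs; omega)
          intro v
          exact derive_m S ((Con.X v).mul (Con.sq _)) (hwX v) (by omega)
      · -- `r = 2`
        have hk2 : k = m + m + 1 := by
          obtain ⟨t, ht⟩ := hk
          omega
        have hr : (m + i) + (m + i) + 2 = d := by omega
        have hwX : ∀ v, piF Δ d p D (w * (X v * (w ^ m * x) ^ 2)) = 0 := by
          intro v
          have := h v
          rw [hk2] at this
          rw [← this]
          congr 1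
          ring
        have hX2 : ∀ u, ∀ g : MvPolynomial V F, Con g → g.IsHomogeneous (2 - 1) →
            piF Δ d p D (yy F α u * (g * (w ^ m * x) ^ 2)) = 0 := by
          intro u g hg hgh
          apply derive_c S (hg.mul (Con.sq _))
          obtain ⟨g', hg'1, hg'2⟩ := hom_split (i := 0) hgh
          rw [hg'2, Finset.sum_mul, Finset.mul_sum, map_sum]
          apply Finset.sum_eq_zero
          intro v _
          have hC : g' v = C (coeff 0 (g' v)) :=
            totalDegree_eq_zero_iff_eq_C.mp (Nat.le_zero.mp (hg'1 v).totalDegree_le)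
          rw [hC]
          have h3 : w * (X v * C (coeff 0 (g' v)) * (w ^ m * x) ^ 2) =
            C (coeff 0 (g' v)) * (w * (X v * (w ^ m * x) ^ 2)) := by ring
          rw [h3, ← smul_eq_C_mul, map_smul, hwX, smul_zero]
        apply conclude_q S hd hr (by norm_num) (hwm m) hflip
        intro vs gs hvs hgs
        apply rel_le S hr le_rfl hX2 _ vs gs (by simpa using hvs) hgs
        intro v vs' hvs'
        have : vs' = [] := List.eq_nil_of_length_eq_zero (by omega)
        subst this
        rw [List.map_nil, List.prod_nil, mul_one]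
        exact derive_m S ((Con.X v).mul (Con.sq _)) (hwX v) (by omega)
    | succ n ih =>
      intro m hm
      have h1 := ih (m + 1) (by omega)
      have hr : (m + i) + (m + i) + (k + 1 - 2 * m) = d := by omega
      have hr3 : 3 ≤ k + 1 - 2 * m := by omega
      have hg0 : ∀ g : MvPolynomial V F, g.IsHomogeneous (k + 1 - 2 * m - 1) →
          piF Δ d p D (wel d α VP p μ c * (g * (w ^ m * x) ^ 2)) = 0 := by
        intro g hgh
        apply piF_J S hd
        · have h3 : wel d α VP p μ c * (g * (w ^ m * x) ^ 2) =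
            (g * (w ^ m * x)) * (w ^ (m + 1) * x) := by
            rw [← hw]; ring
          rw [h3]
          exact Ideal.mul_mem_left _ _ h1
        · have h3 := hwh.mul (hgh.mul ((hwm m).pow 2))
          rw [← hw]
          convert h3 using 1
          omega
      have hX2 : ∀ u, ∀ g : MvPolynomial V F, Con g → g.IsHomogeneous (k + 1 - 2 * m - 1) →
          piF Δ d p D (yy F α u * (g * (w ^ m * x) ^ 2)) = 0 := by
        intro u g hg hgh
        exact derive_c S (hg.mul (Con.sq _)) (hg0 g hgh) u
      apply conclude_q S hd hr (by omega) (hwm m) hflip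
      intro vs gs hvs hgs
      apply rel_le S hr (by omega) hX2 _ vs gs (by omega) hgs
      intro v vs' hvs'
      have hcon : Con (X v * (vs'.map X).prod : MvPolynomial V F) := (Con.X v).mul (Con.listX vs')
      apply derive_m S (hcon.mul (Con.sq _)) _ (by omega)
      apply hg0
      have := (isHomogeneous_X F v).mul (listX_hom (F := F) vs')
      convert this using 1
      omega
  have := key (k / 2) 0 (by omega)
  rwa [pow_zero, one_mul] at this

end final

end CSLef
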