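import Mathlib
import Pool.Agent.Work.MP_38c61c_al.InjR
import Pool.Agent.Work.MP_38c61c_al.Quad.QChar2

/-!
Second order exactness over the local ring and injectivity of the Lefschetz maps.
-/

namespace CSLef

open MvPolynomial Finset

variable {V : Type} [Fintype V] [DecidableEq V]

section local_

variable {R F : Type*} [CommRing R] [IsDomain R] [IsLocalRing R] [IsNoetherianRing R]
  [Field F] [CharP F 2] {π : R →+* F}
variable {Δ : Finset (Finset V)} {a : ℕ → V → R} {d : ℕ} {α : Equiv.Perm V}

/-- the coefficients of a relation between the linear forms are in the ideal -/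
theorem syz_J (H : LocHyp π Δ d a) (j : ℕ) : j ≤ d → ∀ h : ℕ → MvPolynomial V R,
    ∑ l ∈ range j, lin (a l) * h l ∈ srIdeal R Δ → ∀ l < j, h l ∈ Jid Δ a j := by
  induction j with
  | zero => intro _ h _ l hl; omega
  | succ j ih =>
    intro hj h hh
    rw [Finset.sum_range_succ] at hh
    have h1 : lin (a j) * h j ∈ Jid Δ a j := by
      have h2 : ∑ l ∈ range j, lin (a l) * h l ∈ Jid Δ a j := by
        apply Ideal.sum_mem
        intro l hl
        exact Ideal.mul_mem_right _ _ (lin_mem_J (Finset.mem_range.mp hl))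
      have h3 := Ideal.sub_mem _ (sr_le_J j hh) h2
      rwa [add_sub_cancel_left] at h3
    have h2 : h j ∈ Jid Δ a j := (tors_reg π H j (by omega)).2 (by omega) _ h1
    obtain ⟨q, hq⟩ := (mem_J_iff j _).mp h2
    have h3 : ∑ l ∈ range j, lin (a l) * (h l + lin (a j) * q l) ∈ srIdeal R Δ := by
      have h4 := Ideal.sub_mem _ hh (Ideal.mul_mem_left _ (lin (a j)) hq)
      convert h4 using 1
      have h5 : ∑ l ∈ range j, lin (a l) * (h l + lin (a j) * q l) =
          ∑ l ∈ range j, lin (a l) * h l + lin (a j) * ∑ l ∈ range j, lin (a l) * q l := by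
        rw [Finset.mul_sum, ← Finset.sum_add_distrib]
        apply Finset.sum_congr rfl
        intro l _
        ring
      rw [h5]
      ring
    have h4 := ih (by omega) _ h3
    intro l hl
    rcases Nat.lt_succ_iff_lt_or_eq.mp hl with hl' | rfl
    · have h5 := J_mono (Nat.le_succ j) (h4 l hl')
      have h6 : lin (a j) * q l ∈ Jid Δ a (j + 1) :=
        Ideal.mul_mem_right _ _ (lin_mem_J (Nat.lt_succ_self j))
      have h7 := Ideal.sub_mem _ h5 h6
      rwa [add_sub_cancel_right] at h7
    · exact J_mono (Nat.le_succ _) h2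

variable {VP : Finset V} {p : ℕ → V ⊕ Bool → F} {D : ℕ → V ⊕ Bool → Derivation ℤ F F}
  {μ : ℕ → F} {c : V → F} {Dm : ℕ → Derivation ℤ F F} {Dc : V → Derivation ℤ F F}

theorem piF_zero_of_J (H : LocHyp π Δ d a) (S : Setup Δ d α VP p D μ c Dm Dc)
    (hp : ∀ l v, p l (Sum.inl v) = π (a l v)) (hd : 1 ≤ d)
    {f : MvPolynomial V R} (hfh : f.IsHomogeneous d) (hf : f ∈ Jid Δ a d) :
    piF Δ d p D (MvPolynomial.map π f) = 0 := by
  have hrows : (fun l v => π (a l v)) = rows p := by
    funext l v; exact (hp l v).symm
  have h1 := map_J π H.hs.down hf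
  rw [hrows] at h1
  exact piF_J S hd h1 (hfh.map π)

theorem piF_zero_of_add_rename (H : LocHyp π Δ d a) (S : Setup Δ d α VP p D μ c Dm Dc)
    (hp : ∀ l v, p l (Sum.inl v) = π (a l v)) (ha : ∀ l v, a l (α v) = - a l v) (hd : 1 ≤ d)
    {f : MvPolynomial V R} (hfh : f.IsHomogeneous d) (hfα : f + rename α f ∈ Jid Δ a d) :
    piF Δ d p D (MvPolynomial.map π f) = 0 := by
  have hrows : (fun l v => π (a l v)) = rows p := by
    funext l v; exact (hp l v).symm
  obtain ⟨g, hg⟩ := star H S.cs ha d le_rfl f hfα
  have hg2 := homComp_mem_J H.hs.down d hg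
  rw [map_sub, map_sub, homComp_self hfh] at hg2
  have hcr : homogeneousComponent d (rename α g) = rename α (homogeneousComponent d g) := by
    ext m
    rw [coeff_homogeneousComponent, coeff_rename_inv S.cs.invol,
      coeff_rename_inv S.cs.invol, coeff_homogeneousComponent]
    have : (m.mapDomain α).degree = m.degree := Finsupp.degree_mapDomain _ _
    rw [this]
  rw [hcr] at hg2
  set g' := homogeneousComponent d g with hg'
  have hg'h : g'.IsHomogeneous d := homogeneousComponent_isHomogeneous _ _
  have h5 := map_J π H.hs.down hg2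
  rw [map_sub, map_sub, map_rename, hrows] at h5
  have h6 : (MvPolynomial.map π f - (MvPolynomial.map π g' -
      rename α (MvPolynomial.map π g'))).IsHomogeneous d :=
    (hfh.map π).sub ((hg'h.map π).sub ((hg'h.map π).rename_isHomogeneous))
  have h7 := piF_J S hd h5 h6
  rwa [map_sub, map_sub, piF_rename S.cols S.cs S.p_inv, sub_self, sub_zero] at h7

/-- exact form of the symmetry defect of the Lefschetz element -/
theorem rename_welA_eq {A : Type*} [CommRing A] {VP : Finset V} (hinv : ∀ v, α (α v) = v)
    (hvp : ∀ v, v ∈ VP ↔ α v ∉ VP) {a : ℕ → V → A} (ha : ∀ l v, a l (α v) = - a l v)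
    (μ : ℕ → A) (c : V → A) :
    rename α (welA d α VP a μ c) = welA d α VP a μ c + - ∑ l ∈ range d, C (μ l) * lin (a l) := by
  have h : rename α (welA d α VP a μ c) - welA d α VP a μ c =
      - ∑ l ∈ range d, C (μ l) * lin (a l) := by
    rw [← Finset.sum_neg_distrib]
    unfold welA
    simp only [map_add, map_sum, map_mul, rename_C, rename_X]
    have h1 : ∀ v, rename α (yy A α v) = yy A α v := by
      intro v
      unfold yy
      rw [map_add, rename_X, rename_X, hinv]
      ring
    simp only [h1]
    rw [add_sub_add_right_eq_sub, ← Finset.sum_sub_distrib]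
    apply Finset.sum_congr rfl
    intro l _
    rw [lin_eq_VP hinv hvp (ha l), ← mul_sub, ← Finset.sum_sub_distrib, ← mul_neg]
    congr 1
    rw [← Finset.sum_neg_distrib]
    apply Finset.sum_congr rfl
    intro v _
    ring
  rw [← h]
  ring

/-- second order exactness: the degree `d + 1` values vanish after reduction -/
theorem exact2 (H : LocHyp π Δ d a) (S : Setup Δ d α VP p D μ c Dm Dc)
    (hp : ∀ l v, p l (Sum.inl v) = π (a l v)) {μR : ℕ → R} {cR : V → R}
    (ha : ∀ l v, a l (α v) = - a l v) (δ : ℕ → V → Derivation ℤ R R)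
    (δa : ∀ l < d, ∀ v ∈ VP, ∀ l' < d, ∀ u, δ l v (a l' u) =
      if l = l' then (if u = v then 1 else if u = α v then -1 else 0) else 0)
    (δμ : ∀ l v l', δ l v (μR l') = 0) (δc : ∀ l v v', δ l v (cR v') = 0)
    (hd : 1 ≤ d) {i k : ℕ} (hik : i + i + (k + 1) = d) {ε : R} (hε : ε * ε = 1)
    {y : MvPolynomial V R} (hy : y.IsHomogeneous i)
    (hwy : (welA d α VP a μR cR) ^ (k + 1) * y ∈ Jid Δ a d)
    (hαy : rename α y - ε • y ∈ Jid Δ a d)
    (hder : ∀ u, (welA d α VP a μR cR) ^ k * yy R α u * y ^ 2 ∈ Jid Δ a d)
    (hw1 : ∀ v, piF Δ d p D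
      (MvPolynomial.map π ((welA d α VP a μR cR) ^ k * X v * y ^ 2)) = 0) :
    ∀ v, piF Δ d p D
      (MvPolynomial.map π ((welA d α VP a μR cR) ^ (k + 1) * X v * y ^ 2)) = 0 := by
  set w := welA d α VP a μR cR with hwdef
  set J := Jid Δ a d with hJ
  have hwh : w.IsHomogeneous 1 := welA_hom _ _ _ _
  have hΘJ : ∀ l < d, lin (a l) ∈ J := fun l hl => lin_mem_J hl
  have hsrJ : ∀ f ∈ srIdeal R Δ, f ∈ J := fun f hf => sr_le_J d hf
  have hvpα : ∀ v ∈ VP, α v ∉ VP := fun v hv => (S.vp v).mp hv
  -- derivative of the Lefschetz element and of the linear forms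
  have hdw : ∀ l < d, ∀ v ∈ VP, dmap (δ l v) w = C (μR l) * X v := by
    intro l hl v hv
    rw [hwdef]
    unfold welA
    rw [dmap_add, dmap_sum, dmap_sum]
    have h4 : ∀ u ∈ VP, dmap (δ l v) (C (cR u) * yy R α u : MvPolynomial V R) = 0 := by
      intro u _
      have h5 : dmap (δ l v) (yy R α u) = 0 := by
        unfold yy
        rw [dmap_add, dmap_X, dmap_X, add_zero]
      rw [dmap_mul, dmap_C, δc, h5, mul_zero, add_zero, map_zero, zero_mul]
    rw [Finset.sum_eq_zero h4, add_zero]
    have h3 : ∀ l' ∈ range d, dmap (δ l v) (C (μR l') *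
        (∑ u ∈ VP, C (a l' u) * X u : MvPolynomial V R)) =
        if l = l' then C (μR l) * X v else 0 := by
      intro l' hl'
      rw [dmap_mul, dmap_C, δμ, dmap_sum, map_zero, zero_mul, zero_add]
      have h6 : ∀ u ∈ VP, dmap (δ l v) (C (a l' u) * X u : MvPolynomial V R) =
          if u = v then (if l = l' then X v else 0) else 0 := by
        intro u hu
        rw [dmap_mul, dmap_C, dmap_X, mul_zero, add_zero, δa l hl v hv l' (Finset.mem_range.mp hl')]
        have hne : u ≠ α v := fun h => hvpα v hv (h ▸ hu)
        by_cases hll : l = l'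
        · by_cases huv : u = v
          · subst huv
            rw [if_pos hll, if_pos rfl, if_pos rfl, if_pos hll, map_one, one_mul]
          · rw [if_pos hll, if_neg huv, if_neg hne, if_neg huv, map_zero, zero_mul]
        · by_cases huv : u = v
          · rw [if_neg hll, if_pos huv, if_neg hll, map_zero, zero_mul]
          · rw [if_neg hll, if_neg huv, map_zero, zero_mul]
      rw [Finset.sum_congr rfl h6, Finset.sum_ite_eq' VP v, if_pos hv]
      by_cases hll : l = l'
      · subst hll
        rw [if_pos rfl, if_pos rfl]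
      · rw [if_neg hll, if_neg hll, mul_zero]
    rw [Finset.sum_congr rfl h3, Finset.sum_ite_eq (range d) l, if_pos (Finset.mem_range.mpr hl)]
  have hdlin : ∀ l < d, ∀ v ∈ VP, ∀ l' < d, dmap (δ l v) (lin (a l')) =
      if l = l' then X v - X (α v) else 0 := by
    intro l hl v hv l' hl'
    unfold lin
    rw [dmap_sum]
    have h6 : ∀ u ∈ Finset.univ, dmap (δ l v) (C (a l' u) * X u : MvPolynomial V R) =
        (if u = v then (if l = l' then X v else 0) else 0) -
        (if u = α v then (if l = l' then X (α v) else 0) else 0) := by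
      intro u _
      rw [dmap_mul, dmap_C, dmap_X, mul_zero, add_zero, δa l hl v hv l' hl']
      have hne : α v ≠ v := S.cs.fpf v
      by_cases hll : l = l'
      · by_cases huv : u = v
        · subst huv
          rw [if_pos hll, if_pos rfl, if_pos rfl, if_pos hll, if_neg (Ne.symm hne), map_one,
            one_mul, sub_zero]
        · by_cases huv' : u = α v
          · subst huv'
            rw [if_pos hll, if_neg huv, if_pos rfl, if_neg huv, if_pos rfl, if_pos hll, map_neg,
              map_one]
            ring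
          · rw [if_pos hll, if_neg huv, if_neg huv', if_neg huv, if_neg huv', map_zero, zero_mul,
              sub_zero]
      · rw [if_neg hll, if_neg hll, if_neg hll, map_zero, zero_mul]
        simp
    rw [Finset.sum_congr rfl h6, Finset.sum_sub_distrib, Finset.sum_ite_eq', Finset.sum_ite_eq',
      if_pos (Finset.mem_univ _), if_pos (Finset.mem_univ _)]
    by_cases hll : l = l'
    · rw [if_pos hll, if_pos hll, if_pos hll]
    · rw [if_neg hll, if_neg hll, if_neg hll, sub_zero]
  -- expression of the relation
  have hwyh : (w ^ (k + 1) * y).IsHomogeneous (k + i + 1) := by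
    have := (hwh.pow (k + 1)).mul hy
    convert this using 1
    ring
  obtain ⟨g, hgh, hg⟩ := mem_J_hom H.hs.down hwy hwyh
  -- consequence of the derivations
  have hz : ∀ l < d, ∀ v ∈ VP, (X v - X (α v)) * g l * y -
      ((k + 1 : ℕ) : MvPolynomial V R) * C (μR l) * X v * w ^ k * y ^ 2 ∈ J := by
    intro l hl v hv
    have h1 := hsrJ _ (dmap_sr H.hs.down (δ l v) hg)
    have h2 : dmap (δ l v) (w ^ (k + 1) * y - ∑ l' ∈ range d, lin (a l') * g l') =
        ((k + 1 : ℕ) : MvPolynomial V R) * w ^ k * (C (μR l) * X v) * y +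
          w ^ (k + 1) * dmap (δ l v) y -
          ((X v - X (α v)) * g l + ∑ l' ∈ range d, lin (a l') * dmap (δ l v) (g l')) := by
      have h3 : w ^ (k + 1) * y - ∑ l' ∈ range d, lin (a l') * g l' =
        w ^ (k + 1) * y + C (-1) * ∑ l' ∈ range d, lin (a l') * g l' := by
        rw [map_neg, map_one]; ring
      have h4 : δ l v (-1 : R) = 0 := by
        have := Derivation.map_intCast (δ l v) (-1)
        exact_mod_cast this
      have h5 : dmap (δ l v) (∑ l' ∈ range d, lin (a l') * g l') =
          (X v - X (α v)) * g l + ∑ l' ∈ range d, lin (a l') * dmap (δ l v) (g l') := by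
        rw [dmap_sum]
        have h6 : ∀ l' ∈ range d, dmap (δ l v) (lin (a l') * g l') =
            (if l = l' then (X v - X (α v)) * g l' else 0) + lin (a l') * dmap (δ l v) (g l') := by
          intro l' hl'
          rw [dmap_mul, hdlin l hl v hv l' (Finset.mem_range.mp hl')]
          by_cases hll : l = l'
          · rw [if_pos hll, if_pos hll]
          · rw [if_neg hll, if_neg hll, zero_mul]
        rw [Finset.sum_congr rfl h6, Finset.sum_add_distrib, Finset.sum_ite_eq (range d) l,
          if_pos (Finset.mem_range.mpr hl)]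
      rw [h3, dmap_add, dmap_mul, dmap_mul, dmap_C, h4, map_zero, zero_mul, zero_add, h5,
        dmap_pow, hdw l hl v hv, map_neg, map_one, neg_one_mul, ← sub_eq_add_neg]
      ring
    rw [h2] at h1
    have h3 := Ideal.mul_mem_left _ y h1
    have h4 : ∑ l' ∈ range d, lin (a l') * dmap (δ l v) (g l') ∈ J :=
      Ideal.sum_mem _ (fun l' hl' => Ideal.mul_mem_right _ _ (hΘJ l' (Finset.mem_range.mp hl')))
    have h5 := Ideal.mul_mem_left J (dmap (δ l v) y) hwy
    have h6 := Ideal.sub_mem _ h5 (Ideal.add_mem _ h3 (Ideal.mul_mem_left _ y h4))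
    convert h6 using 1
    ring
  -- consequence of the involution
  set j := rename α y - ε • y with hj
  have hjh : j.IsHomogeneous i := by
    apply (hy.rename_isHomogeneous).sub
    rw [smul_eq_C_mul]
    have := (isHomogeneous_C V ε).mul hy
    rwa [zero_add] at this
  obtain ⟨q, hq⟩ := (mem_J_iff d j).mp hαy
  set τ : MvPolynomial V R := ∑ l ∈ range d, C (μR l) * lin (a l) with hτ
  have hτJ : τ ∈ J := Ideal.sum_mem _
    (fun l hl => Ideal.mul_mem_left _ _ (hΘJ l (Finset.mem_range.mp hl)))
  have hαw : rename α w = w + - τ := rename_welA_eq S.cs.invol S.vp ha μR cR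
  have hαyj : rename α y = C ε * y + j := by
    rw [hj, smul_eq_C_mul]; ring
  have hinv : ∀ l < d, rename α (g l) + C ε * g l -
      ((k + 1 : ℕ) : MvPolynomial V R) * C ε * C (μR l) * w ^ k * y + w ^ (k + 1) * q l ∈ J := by
    obtain ⟨κ, hκ⟩ := Polynomial.powAddExpansion w (-τ) (k + 1)
    rw [Nat.add_sub_cancel] at hκ
    have h1 := rename_sr S.cs hg
    rw [map_sub, map_mul, map_pow, map_sum, hαw, hκ] at h1
    have h2 : ∑ l ∈ range d, rename α (lin (a l) * g l) =
        - ∑ l ∈ range d, lin (a l) * rename α (g l) := by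
      rw [← Finset.sum_neg_distrib]
      apply Finset.sum_congr rfl
      intro l _
      rw [map_mul, rename_lin_neg S.cs.invol ha]
      ring
    rw [h2] at h1
    -- subtract the multiples of the two relations
    have h3 := Ideal.sub_mem _ (Ideal.sub_mem _ h1 (Ideal.mul_mem_left _ (C ε) hg))
      (Ideal.mul_mem_left _ (w ^ (k + 1)) hq)
    have h4 : ∑ l ∈ range d, lin (a l) * ((rename α (g l) + C ε * g l -
        ((k + 1 : ℕ) : MvPolynomial V R) * C ε * C (μR l) * w ^ k * y + w ^ (k + 1) * q l) -
        (((k + 1 : ℕ) : MvPolynomial V R) * C (μR l) * w ^ k * j -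
          κ * C (μR l) * τ * rename α y)) ∈ srIdeal R Δ := by
      convert h3 using 1
      have e1 : ∀ Tt : MvPolynomial V R,
          ∑ l ∈ range d, lin (a l) * ((rename α (g l) + C ε * g l -
        ((k + 1 : ℕ) : MvPolynomial V R) * C ε * C (μR l) * w ^ k * y + w ^ (k + 1) * q l) -
        (((k + 1 : ℕ) : MvPolynomial V R) * C (μR l) * w ^ k * j -
          κ * C (μR l) * Tt * rename α y)) =
          ∑ l ∈ range d, lin (a l) * rename α (g l) + C ε * ∑ l ∈ range d, lin (a l) * g l
          - ((k + 1 : ℕ) : MvPolynomial V R) * C ε * w ^ k * y * τ +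
          w ^ (k + 1) * ∑ l ∈ range d, lin (a l) * q l
          - ((k + 1 : ℕ) : MvPolynomial V R) * w ^ k * j * τ + κ * Tt * rename α y * τ := by
        intro Tt
        rw [hτ]
        simp only [Finset.mul_sum]
        rw [← Finset.sum_add_distrib, ← Finset.sum_sub_distrib, ← Finset.sum_add_distrib,
          ← Finset.sum_sub_distrib, ← Finset.sum_add_distrib]
        apply Finset.sum_congr rfl
        intro l _
        ring
      rw [e1 τ, hαyj]
      ring
    intro l hl
    have h5 := syz_J H d le_rfl _ h4 l hl
    have h6 : ((k + 1 : ℕ) : MvPolynomial V R) * C (μR l) * w ^ k * j -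
          κ * C (μR l) * τ * rename α y ∈ J :=
      Ideal.sub_mem _ (Ideal.mul_mem_left _ _ hαy)
        (Ideal.mul_mem_right _ _ (Ideal.mul_mem_left _ _ hτJ))
    have h7 := Ideal.add_mem _ h5 h6
    rwa [sub_add_cancel] at h7
  -- degrees
  have hgyh : ∀ l v, (X v * g l * y).IsHomogeneous d := by
    intro l v
    have := ((isHomogeneous_X R v).mul (hgh l)).mul hy
    convert this using 1
    omega
  have hkyh : ∀ v, (w ^ k * X v * y ^ 2).IsHomogeneous d := by
    intro v
    have := ((hwh.pow k).mul (isHomogeneous_X R v)).mul (hy.pow 2)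
    convert this using 1
    omega
  -- the values on the vertices in the chosen half
  have hpos : ∀ l < d, ∀ v ∈ VP, piF Δ d p D (MvPolynomial.map π (X v * g l * y)) = 0 := by
    intro l hl v hv
    apply piF_zero_of_add_rename H S hp ha hd (hgyh l v)
    have h1 := hinv l hl
    have h2 := hz l hl v hv
    have h3 := hder v
    rw [map_mul, map_mul, rename_X, hαyj]
    have e1 : X v * g l * y + X (α v) * rename α (g l) * (C ε * y + j) =
        ((X v - X (α v)) * g l * y -
          ((k + 1 : ℕ) : MvPolynomial V R) * C (μR l) * X v * w ^ k * y ^ 2) +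
        ((k + 1 : ℕ) : MvPolynomial V R) * C (μR l) * (w ^ k * yy R α v * y ^ 2) +
        X (α v) * C ε * y * (rename α (g l) + C ε * g l -
          ((k + 1 : ℕ) : MvPolynomial V R) * C ε * C (μR l) * w ^ k * y + w ^ (k + 1) * q l) +
        X (α v) * rename α (g l) * j - X (α v) * C ε * q l * (w ^ (k + 1) * y) +
        (1 - C ε * C ε) * (X (α v) * g l * y -
          ((k + 1 : ℕ) : MvPolynomial V R) * C (μR l) * X (α v) * w ^ k * y ^ 2) := by
      unfold yy
      ring
    have e2 : (1 - C ε * C ε : MvPolynomial V R) = 0 := by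
      rw [← map_mul, hε, map_one, sub_self]
    rw [e1, e2, zero_mul, add_zero]
    apply Ideal.sub_mem
    · apply Ideal.add_mem
      · apply Ideal.add_mem
        · exact Ideal.add_mem _ h2 (Ideal.mul_mem_left _ _ h3)
        · exact Ideal.mul_mem_left _ _ h1
      · exact Ideal.mul_mem_left _ _ hαy
    · exact Ideal.mul_mem_left _ _ hwy
  have hall : ∀ l < d, ∀ v, piF Δ d p D (MvPolynomial.map π (X v * g l * y)) = 0 := by
    intro l hl v
    by_cases hv : v ∈ VP
    · exact hpos l hl v hv
    · have hv' : α v ∈ VP := by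
        by_contra h'
        exact hv ((S.vp v).mpr h')
      have h1 := hz l hl (α v) hv'
      rw [S.cs.invol] at h1
      have h2 := piF_zero_of_J H S hp hd (by
        have e1 : ((X (α v) - X v) * g l * y -
            ((k + 1 : ℕ) : MvPolynomial V R) * C (μR l) * X (α v) * w ^ k * y ^ 2) =
            X (α v) * g l * y - X v * g l * y -
            C (((k + 1 : ℕ) : R) * μR l) * (w ^ k * X (α v) * y ^ 2) := by
          rw [map_mul, map_natCast]; ring
        rw [e1]
        apply ((hgyh l (α v)).sub (hgyh l v)).sub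
        have := (isHomogeneous_C V (((k + 1 : ℕ) : R) * μR l)).mul (hkyh (α v))
        rwa [zero_add] at this) h1
      have e1 : ((X (α v) - X v) * g l * y -
            ((k + 1 : ℕ) : MvPolynomial V R) * C (μR l) * X (α v) * w ^ k * y ^ 2) =
            X (α v) * g l * y - X v * g l * y -
            C (((k + 1 : ℕ) : R) * μR l) * (w ^ k * X (α v) * y ^ 2) := by
          rw [map_mul, map_natCast]; ring
      rw [e1, map_sub, map_sub, map_sub, map_sub, hpos l hl _ hv', map_mul (MvPolynomial.map π) (C _),
        map_C, ← smul_eq_C_mul, map_smul, hw1, smul_zero, sub_zero, zero_sub, neg_eq_zero] at h2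
      exact h2
  -- conclusion
  intro v
  have e1 : w ^ (k + 1) * X v * y ^ 2 =
      (X v * y) * (w ^ (k + 1) * y - ∑ l ∈ range d, lin (a l) * g l) +
      ∑ l ∈ range d, lin (a l) * (X v * g l * y) := by
    have e2 : ∑ l ∈ range d, lin (a l) * (X v * g l * y) =
        (X v * y) * ∑ l ∈ range d, lin (a l) * g l := by
      rw [Finset.mul_sum]
      apply Finset.sum_congr rfl
      intro l _
      ring
    rw [e2]
    ring
  have e3 : ∑ l ∈ range d, piF Δ d p D (MvPolynomial.map π (lin (a l) * (X v * g l * y))) = 0 := by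
    apply Finset.sum_eq_zero
    intro l hl
    rw [map_mul, map_lin]
    have h1 := piF_lin_mul S.cols S.cs (Δ := Δ) (Finset.mem_range.mp hl)
      (MvPolynomial.map π (X v * g l * y))
    have h2 : (fun v => π (a l v)) = (fun v => p l (Sum.inl v)) := by
      funext v; exact (hp l v).symm
    rw [h2, h1, hall l (Finset.mem_range.mp hl) v, mul_zero]
  rw [e1, map_add, map_add, map_sum, map_sum, e3, add_zero]
  apply piF_sr S.cols S.cs S.hs.down
  apply map_sr π H.hs.down
  exact Ideal.mul_mem_left _ _ hg

/-- injectivity over the local ring -/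
theorem inj_Rq (H : LocHyp π Δ d a) (S : Setup Δ d α VP p D μ c Dm Dc)
    (hp : ∀ l v, p l (Sum.inl v) = π (a l v)) {μR : ℕ → R} {cR : V → R}
    (hμ : ∀ l, μ l = π (μR l)) (hc : ∀ v, c v = π (cR v))
    (ha : ∀ l v, a l (α v) = - a l v) (δ : V → Derivation ℤ R R)
    (δa : ∀ v l u, δ v (a l u) = 0) (δμ : ∀ v l, δ v (μR l) = 0)
    (δc : ∀ v ∈ VP, ∀ v', δ v (cR v') = if v = v' then 1 else 0)
    (δ2 : ℕ → V → Derivation ℤ R R)
    (δ2a : ∀ l < d, ∀ v ∈ VP, ∀ l' < d, ∀ u, δ2 l v (a l' u) =
      if l = l' then (if u = v then 1 else if u = α v then -1 else 0) else 0)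
    (δ2μ : ∀ l v l', δ2 l v (μR l') = 0) (δ2c : ∀ l v v', δ2 l v (cR v') = 0)
    (hchar : ∀ n : ℕ, n ≠ 0 → (n : R) ≠ 0) (hd : 1 ≤ d)
    (hflip : CondQuad Δ α d)
    {i k : ℕ} (hik : i + i + (k + 1) = d) {x : MvPolynomial V R} (hx : x.IsHomogeneous i)
    (hw : (welA d α VP a μR cR) ^ (k + 1) * x ∈ Jid Δ a d) : x ∈ Jid Δ a d := by
  set w := welA d α VP a μR cR with hwdef
  set J := Jid Δ a d with hJ
  have hrows : (fun l v => π (a l v)) = rows p := by
    funext l v; exact (hp l v).symm
  have hmapw : MvPolynomial.map π w = wel d α VP p μ c := by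
    rw [hwdef]
    unfold welA wel
    rw [map_add, map_sum, map_sum]
    congr 1
    · apply Finset.sum_congr rfl
      intro l _
      rw [map_mul, map_C, hμ, map_sum]
      congr 1
      apply Finset.sum_congr rfl
      intro v _
      rw [map_mul, map_C, map_X, hp]
    · apply Finset.sum_congr rfl
      intro v _
      rw [map_mul, map_C, hc]
      unfold yy
      rw [map_add, map_X, map_X]
  have hwα : rename α w - w ∈ J := rename_welA S.cs.invol S.vp ha μR cR Δ
  have hT : ∀ f : MvPolynomial V R, (2 : R) • f ∈ J → f ∈ J := (tors_reg π H d le_rfl).1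
  -- the derivative of the Lefschetz element
  have hdw : ∀ u ∈ VP, dmap (δ u) w = yy R α u := by
    intro u hu
    rw [hwdef]
    unfold welA
    rw [dmap_add, dmap_sum, dmap_sum]
    have h3 : ∀ l ∈ range d, dmap (δ u) (C (μR l) *
        (∑ v ∈ VP, C (a l v) * X v : MvPolynomial V R)) = 0 := by
      intro l _
      rw [dmap_mul, dmap_C, δμ, dmap_sum, map_zero, zero_mul, zero_add]
      rw [Finset.sum_eq_zero, mul_zero]
      intro v _
      rw [dmap_mul, dmap_C, δa, dmap_X, map_zero, zero_mul, mul_zero, add_zero]
    rw [Finset.sum_eq_zero h3, zero_add]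
    have h4 : ∀ v ∈ VP, dmap (δ u) (C (cR v) * yy R α v : MvPolynomial V R) =
        if u = v then yy R α v else 0 := by
      intro v _
      have h5 : dmap (δ u) (yy R α v) = 0 := by
        unfold yy
        rw [dmap_add, dmap_X, dmap_X, add_zero]
      rw [dmap_mul, dmap_C, δc u hu, h5, mul_zero, add_zero]
      split_ifs <;> simp
    rw [Finset.sum_congr rfl h4, Finset.sum_ite_eq VP u, if_pos hu]
  -- main claim
  have main : ∀ ε : R, ε * ε = 1 → ∀ y : MvPolynomial V R, y.IsHomogeneous i →
      w ^ (k + 1) * y ∈ J → rename α y - ε • y ∈ J → y ∈ J := by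
    intro ε hε y0 hy0 hwy0 hαy0
    let N : Submodule R (MvPolynomial V R) := J.restrictScalars R
    let U : Submodule R (MvPolynomial V R) :=
      { carrier := {x | x.IsHomogeneous i ∧ w ^ (k + 1) * x ∈ J ∧ rename α x - ε • x ∈ J}
        add_mem' := by
          rintro x y ⟨h1, h2, h3⟩ ⟨h4, h5, h6⟩
          refine ⟨h1.add h4, by rw [mul_add]; exact Ideal.add_mem _ h2 h5, ?_⟩
          have := Ideal.add_mem _ h3 h6
          convert this using 1
          rw [map_add, smul_add]
          ring
        zero_mem' := ⟨isHomogeneous_zero _ _ _, by rw [mul_zero]; exact Ideal.zero_mem _,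
          by rw [map_zero, smul_zero, sub_zero]; exact Ideal.zero_mem _⟩
        smul_mem' := by
          rintro r x ⟨h1, h2, h3⟩
          refine ⟨?_, ?_, ?_⟩
          · rw [smul_eq_C_mul]
            have := (isHomogeneous_C V r).mul h1
            rwa [zero_add] at this
          · rw [smul_eq_C_mul, mul_left_comm]
            exact Ideal.mul_mem_left _ _ h2
          · have := Ideal.mul_mem_left _ (C r) h3
            convert this using 1
            rw [map_smul, mul_sub, smul_eq_C_mul, smul_eq_C_mul, smul_eq_C_mul, smul_eq_C_mul]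
            ring }
    have hUN : U ≤ N := by
      apply nak H.max (n := i) N U (fun x hx => (mem_homogeneousSubmodule i x).mpr hx.1)
      rintro y ⟨hy1, hy2, hy3⟩
      -- derivative
      have hder : ∀ u, w ^ k * yy R α u * y ^ 2 ∈ J := by
        have key : ∀ u ∈ VP, w ^ k * yy R α u * y ^ 2 ∈ J := by
          intro u hu
          have h1 := dmap_J H.hs.down (δ u) (δa u) hy2
          rw [dmap_mul, dmap_pow, hdw u hu] at h1
          have h2 := Ideal.mul_mem_left _ y h1
          have h3 : ((k + 1 : ℕ) : R) • (w ^ k * yy R α u * y ^ 2) ∈ J := by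
            have h4 := Ideal.sub_mem _ h2 (Ideal.mul_mem_right (dmap (δ u) y) _ hy2)
            convert h4 using 1
            rw [smul_eq_C_mul, map_natCast]
            ring
          exact tors π H (hchar (k + 1) (Nat.succ_ne_zero k)) h3
        intro u
        by_cases hu : u ∈ VP
        · exact key u hu
        · have h1 : α u ∈ VP := by
            by_contra h'
            exact hu ((S.vp u).mpr h')
          have h2 := key _ h1
          have h3 : yy R α (α u) = yy R α u := by
            unfold yy; rw [S.cs.invol]; ring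
          rwa [h3] at h2
      -- reduction
      have hw1 : ∀ v, piF Δ d p D (MvPolynomial.map π (w ^ k * X v * y ^ 2)) = 0 := by
        intro v
        set f := w ^ k * X v * y ^ 2 with hf
        have hwpow : rename α (w ^ k) - w ^ k ∈ J := by
          have : ∀ n : ℕ, rename α (w ^ n) - w ^ n ∈ J := by
            intro n
            induction n with
            | zero => rw [pow_zero, map_one, sub_self]; exact Ideal.zero_mem _
            | succ n ihn =>
              rw [pow_succ, map_mul]
              exact mul_sub_mem' ihn hwα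
          exact this k
        have hysq : rename α (y ^ 2) - y ^ 2 ∈ J := by
          have h1 : rename α (y ^ 2) - y ^ 2 =
              (rename α y - ε • y) * (rename α y + ε • y) := by
            rw [map_pow, smul_eq_C_mul]
            have h2 : (C ε * y) * (C ε * y) = y ^ 2 := by
              have : (C ε * y) * (C ε * y) = C (ε * ε) * y ^ 2 := by rw [map_mul]; ring
              rw [this, hε, map_one, one_mul]
            linear_combination h2
          rw [h1]
          exact Ideal.mul_mem_right _ _ hy3
        apply piF_zero_of_add_rename H S hp ha hd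
        · have h1 := (((welA_hom (d := d) (α := α) VP a μR cR).pow k).mul
            (isHomogeneous_X R v)).mul (hy1.pow 2)
          rw [← hwdef, ← hf] at h1
          convert h1 using 1
          omega
        · have h1 : f + rename α f = w ^ k * yy R α v * y ^ 2 +
              X (α v) * (rename α (w ^ k) * rename α (y ^ 2) - w ^ k * y ^ 2) := by
            rw [hf, map_mul, map_mul, rename_X]
            unfold yy
            ring
          rw [h1]
          exact Ideal.add_mem _ (hder v) (Ideal.mul_mem_left _ _ (mul_sub_mem' hwpow hysq))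
      have hmapf : ∀ n v, MvPolynomial.map π (w ^ n * X v * y ^ 2) =
          (wel d α VP p μ c) ^ n * X v * (MvPolynomial.map π y) ^ 2 := by
        intro n v
        rw [map_mul, map_mul, map_pow, map_pow, map_X, hmapw]
      have hred : MvPolynomial.map π y ∈ Jid Δ (rows p) d := by
        apply char2_main_q S hd hflip hik (hy1.map π)
        · intro v
          have h8 := hw1 v
          rwa [hmapf] at h8
        · intro _ v
          have h8 := exact2 H S hp ha δ2 δ2a δ2μ δ2c hd hik hε hy1 hy2 hy3 hder hw1 v
          rwa [← hwdef, hmapf] at h8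
      rw [← hrows] at hred
      obtain ⟨e, he, heh, y', hy', hyy⟩ := lift_J_hom π H.hs.down H.surj H.ker hy1 hred
      refine ⟨e, he, y', ⟨hy', ?_, ?_⟩, hyy⟩
      · apply hT
        have h4 : (2 : R) • (w ^ (k + 1) * y') = w ^ (k + 1) * y - w ^ (k + 1) * e := by
          rw [hyy, mul_add, mul_smul_comm]; ring
        rw [h4]
        exact Ideal.sub_mem _ hy2 (Ideal.mul_mem_left _ _ he)
      · apply hT
        have h4 : (2 : R) • (rename α y' - ε • y') =
            (rename α y - ε • y) - (rename α e - ε • e) := by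
          rw [hyy, map_add, map_smul, smul_add, smul_sub, smul_comm (2 : R) ε y']
          ring
        rw [h4]
        apply Ideal.sub_mem _ hy3
        apply Ideal.sub_mem _ (rename_J S.cs ha he)
        rw [smul_eq_C_mul]
        exact Ideal.mul_mem_left _ _ he
    exact hUN ⟨hy0, hwy0, hαy0⟩
  -- splitting into eigenvectors
  have hwαx : w ^ (k + 1) * rename α x ∈ J := by
    have h1 := rename_J S.cs ha hw
    rw [map_mul] at h1
    have hwpow : rename α (w ^ (k + 1)) - w ^ (k + 1) ∈ J := by
      have : ∀ n : ℕ, rename α (w ^ n) - w ^ n ∈ J := by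
        intro n
        induction n with
        | zero => rw [pow_zero, map_one, sub_self]; exact Ideal.zero_mem _
        | succ n ihn =>
          rw [pow_succ, map_mul]
          exact mul_sub_mem' ihn hwα
      exact this (k + 1)
    have h2 := Ideal.sub_mem _ h1 (Ideal.mul_mem_right (rename α x) _ hwpow)
    convert h2 using 1
    ring
  have hαx : (rename α x).IsHomogeneous i := hx.rename_isHomogeneous
  have h1 : x + rename α x ∈ J := by
    apply main 1 (one_mul 1) _ (hx.add hαx)
    · rw [mul_add]; exact Ideal.add_mem _ hw hwαx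
    · rw [map_add, rename_rename_inv S.cs.invol, one_smul, add_comm, sub_self]
      exact Ideal.zero_mem _
  have h2 : x - rename α x ∈ J := by
    apply main (-1) (by ring) _ (hx.sub hαx)
    · rw [mul_sub]; exact Ideal.sub_mem _ hw hwαx
    · rw [map_sub, rename_rename_inv S.cs.invol, neg_smul, one_smul, sub_neg_eq_add,
        sub_add_sub_cancel, sub_self]
      exact Ideal.zero_mem _
  apply hT
  have h3 := Ideal.add_mem _ h1 h2
  convert h3 using 1
  rw [two_smul]
  ring

end local_

end CSLef
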