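import Mathlib
import Pool.Agent.Work.MP_38c61c_al.Quad.QChar2

/-!
Shattering: a nonempty family of subsets with even degrees shatters a set.
-/

namespace CSLef

open Finset

variable {V : Type} [DecidableEq V]

/-- A nonempty family of subsets of `G` in which each set with at most `D` elements is contained
in an even number of members shatters a set with `D + 1` elements. -/
theorem shatter_of_even (G : Finset V) : ∀ (D : ℕ) (𝓣 : Finset (Finset V)),
    (∀ T ∈ 𝓣, T ⊆ G) → 𝓣.Nonempty →
    (∀ P ⊆ G, P.card ≤ D → Even (𝓣.filter (fun T => P ⊆ T)).card) →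
    ∃ S ⊆ G, S.card = D + 1 ∧ ∀ Q ⊆ S, ∃ T ∈ 𝓣, T ∩ S = Q := by
  induction G using Finset.induction_on with
  | empty =>
    intro D 𝓣 hsub hne heven
    exfalso
    have h1 : 𝓣 = {∅} := by
      apply Finset.Nonempty.subset_singleton_iff hne |>.mp
      intro T hT
      rw [Finset.mem_singleton]
      exact Finset.subset_empty.mp (hsub T hT)
    have h2 := heven ∅ (Finset.Subset.refl _) (by simp)
    rw [h1] at h2
    simp at h2
  | insert v G hv ih =>
    intro D 𝓣 hsub hne heven
    set 𝓣0 := 𝓣.filter (fun T => v ∉ T) with h𝓣0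
    set 𝓣v := 𝓣.filter (fun T => v ∈ T) with h𝓣v
    set 𝓣1 := 𝓣v.image (fun T => T.erase v) with h𝓣1
    have hsub0 : ∀ T ∈ 𝓣0, T ⊆ G := by
      intro T hT
      rw [h𝓣0, Finset.mem_filter] at hT
      intro x hx
      rcases Finset.mem_insert.mp (hsub T hT.1 hx) with h | h
      · exact absurd (h ▸ hx) hT.2
      · exact h
    have hsub1 : ∀ T ∈ 𝓣1, T ⊆ G := by
      intro T hT
      obtain ⟨T', hT', rfl⟩ := Finset.mem_image.mp hT
      rw [h𝓣v, Finset.mem_filter] at hT'
      intro x hx
      rw [Finset.mem_erase] at hx
      rcases Finset.mem_insert.mp (hsub T' hT'.1 hx.2) with h | h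
      · exact absurd h hx.1
      · exact h
    -- counting the members of `𝓣1` over a set
    have hcard1 : ∀ P ⊆ G, (𝓣1.filter (fun T => P ⊆ T)).card =
        (𝓣v.filter (fun T => P ⊆ T)).card := by
      intro P hP
      have h1 : 𝓣1.filter (fun T => P ⊆ T) =
          (𝓣v.filter (fun T => P ⊆ T)).image (fun T => T.erase v) := by
        ext T
        simp only [h𝓣1, Finset.mem_filter, Finset.mem_image]
        constructor
        · rintro ⟨⟨T', hT', rfl⟩, hPT⟩
          exact ⟨T', ⟨hT', hPT.trans (Finset.erase_subset _ _)⟩, rfl⟩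
        · rintro ⟨T', ⟨hT', hPT⟩, rfl⟩
          refine ⟨⟨T', hT', rfl⟩, ?_⟩
          intro x hx
          rw [Finset.mem_erase]
          exact ⟨fun h => hv (h ▸ hP hx), hPT hx⟩
      rw [h1, Finset.card_image_of_injOn]
      intro T hT T' hT' heq
      rw [Finset.mem_coe, Finset.mem_filter, h𝓣v, Finset.mem_filter] at hT hT'
      have h2 := congrArg (insert v) heq
      simp only at h2
      rwa [Finset.insert_erase hT.1.2, Finset.insert_erase hT'.1.2] at h2
    have hsplit : ∀ P : Finset V, (𝓣.filter (fun T => P ⊆ T)).card =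
        (𝓣v.filter (fun T => P ⊆ T)).card + (𝓣0.filter (fun T => P ⊆ T)).card := by
      intro P
      rw [h𝓣v, h𝓣0, Finset.filter_comm, Finset.filter_comm (p := fun T => v ∉ T)]
      exact (Finset.card_filter_add_card_filter_not (s := 𝓣.filter (fun T => P ⊆ T))
        (fun T => v ∈ T)).symm
    by_cases hU : (symmDiff 𝓣0 𝓣1).Nonempty
    · obtain ⟨S, hS, hSc, hSQ⟩ := ih D (symmDiff 𝓣0 𝓣1) (by
        intro T hT
        rcases Finset.mem_symmDiff.mp hT with h | h
        · exact hsub0 T h.1
        · exact hsub1 T h.1) hU (by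
        intro P hP hPc
        have h1 := heven P (hP.trans (Finset.subset_insert _ _)) hPc
        rw [hsplit, ← hcard1 P hP] at h1
        have h2 : (symmDiff 𝓣0 𝓣1).filter (fun T => P ⊆ T) =
            symmDiff (𝓣0.filter (fun T => P ⊆ T)) (𝓣1.filter (fun T => P ⊆ T)) := by
          ext T
          simp only [Finset.mem_filter, Finset.mem_symmDiff]
          tauto
        rw [h2]
        have h3 : ∀ A B : Finset (Finset V), Even (B.card + A.card) →
            Even (symmDiff A B).card := by
          intro A B hAB
          have h4 : (symmDiff A B).card + 2 * (A ∩ B).card = A.card + B.card := by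
            have h8 : symmDiff A B = (A \ B) ∪ (B \ A) := rfl
            rw [h8, Finset.card_union_of_disjoint disjoint_sdiff_sdiff]
            have h5 := Finset.card_inter_add_card_sdiff A B
            have h6 := Finset.card_inter_add_card_sdiff B A
            rw [Finset.inter_comm B A] at h6
            omega
          have h7 : Even ((symmDiff A B).card + 2 * (A ∩ B).card) := by
            rw [h4, add_comm]; exact hAB
          rw [Nat.even_add] at h7
          exact h7.mpr (even_two_mul _)
        exact h3 _ _ h1)
      refine ⟨S, hS.trans (Finset.subset_insert _ _), hSc, ?_⟩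
      intro Q hQ
      obtain ⟨T, hT, hTS⟩ := hSQ Q hQ
      rcases Finset.mem_symmDiff.mp hT with h | h
      · exact ⟨T, (Finset.mem_filter.mp h.1).1, hTS⟩
      · obtain ⟨T', hT', rfl⟩ := Finset.mem_image.mp h.1
        refine ⟨T', (Finset.mem_filter.mp hT').1, ?_⟩
        rw [← hTS]
        ext x
        simp only [Finset.mem_inter, Finset.mem_erase]
        constructor
        · rintro ⟨h1, h2⟩
          exact ⟨⟨fun h => hv (h ▸ hS h2), h1⟩, h2⟩
        · rintro ⟨⟨_, h1⟩, h2⟩
          exact ⟨h1, h2⟩
    · have h01 : 𝓣0 = 𝓣1 := by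
        rw [Finset.not_nonempty_iff_eq_empty] at hU
        have := Finset.symmDiff_eq_empty.mp hU
        exact this
      have hne0 : 𝓣0.Nonempty := by
        obtain ⟨T, hT⟩ := hne
        by_cases hvT : v ∈ T
        · rw [h01]
          exact ⟨T.erase v, Finset.mem_image_of_mem _ (Finset.mem_filter.mpr ⟨hT, hvT⟩)⟩
        · exact ⟨T, Finset.mem_filter.mpr ⟨hT, hvT⟩⟩
      -- lifting members
      have hlift : ∀ T ∈ 𝓣0, insert v T ∈ 𝓣 := by
        intro T hT
        rw [h01] at hT
        obtain ⟨T', hT', rfl⟩ := Finset.mem_image.mp hT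
        rw [h𝓣v, Finset.mem_filter] at hT'
        rw [Finset.insert_erase hT'.2]
        exact hT'.1
      have hmem0 : ∀ T ∈ 𝓣0, T ∈ 𝓣 ∧ v ∉ T := fun T hT => Finset.mem_filter.mp hT
      rcases D with _ | D
      · refine ⟨{v}, Finset.singleton_subset_iff.mpr (Finset.mem_insert_self _ _),
          Finset.card_singleton _, ?_⟩
        intro Q hQ
        obtain ⟨T, hT⟩ := hne0
        rcases Finset.subset_singleton_iff.mp hQ with rfl | rfl
        · refine ⟨T, (hmem0 T hT).1, ?_⟩
          rw [Finset.inter_singleton_of_notMem (hmem0 T hT).2]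
        · refine ⟨insert v T, hlift T hT, ?_⟩
          rw [Finset.inter_singleton_of_mem (Finset.mem_insert_self _ _)]
      · obtain ⟨S, hS, hSc, hSQ⟩ := ih D 𝓣0 hsub0 hne0 (by
          intro P hP hPc
          have hvP : v ∉ P := fun h => hv (hP h)
          have h1 := heven (insert v P) (Finset.insert_subset_insert _ hP) (by
            rw [Finset.card_insert_of_notMem hvP]; omega)
          have h2 : 𝓣.filter (fun T => insert v P ⊆ T) = 𝓣v.filter (fun T => P ⊆ T) := by
            ext T
            simp only [h𝓣v, Finset.mem_filter, Finset.insert_subset_iff]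
            tauto
          rw [h2, ← hcard1 P hP, ← h01] at h1
          exact h1)
        have hvS : v ∉ S := fun h => hv (hS h)
        refine ⟨insert v S, Finset.insert_subset_insert _ hS, ?_, ?_⟩
        · rw [Finset.card_insert_of_notMem hvS, hSc]
        · intro Q hQ
          obtain ⟨T, hT, hTS⟩ := hSQ (Q.erase v) (by
            intro x hx
            rw [Finset.mem_erase] at hx
            rcases Finset.mem_insert.mp (hQ hx.2) with h | h
            · exact absurd h hx.1
            · exact h)
          by_cases hvQ : v ∈ Q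
          · refine ⟨insert v T, hlift T hT, ?_⟩
            rw [← Finset.insert_inter_distrib, hTS, Finset.insert_erase hvQ]
          · refine ⟨T, (hmem0 T hT).1, ?_⟩
            rw [Finset.erase_eq_of_notMem hvQ] at hTS
            rw [← hTS]
            ext x
            simp only [Finset.mem_inter, Finset.mem_insert]
            constructor
            · rintro ⟨h1, h2 | h2⟩
              · exact absurd (h2 ▸ h1) (hmem0 T hT).2
              · exact ⟨h1, h2⟩
            · rintro ⟨h1, h2⟩
              exact ⟨h1, Or.inr h2⟩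

end CSLef
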