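import Mathlib
import Pool.Agent.Work.MP_38c61c_al.Quad.QChar2

/-!
The earlier conditions on flips imply the quadratic condition.
-/

namespace CSLef

open Finset

variable {V : Type} [DecidableEq V]

theorem condQuad_of_condAff {Δ : Finset (Finset V)} {α : Equiv.Perm V} {d : ℕ}
    (h : CondAff Δ α d) : CondQuad Δ α d := by
  intro G hG hc 𝓣 h1 h2 h3 h4
  have hbig : d < 2 * G.card := by omega
  have key : ∀ v ∈ G, 𝓣.filter (fun T => v ∉ T) = ∅ := by
    intro v hv
    apply h G hG hbig v hv
    · intro T hT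
      rw [Finset.mem_filter] at hT
      exact ⟨(h1 T hT.1).1, hT.2, (h1 T hT.1).2⟩
    · have h5 := Finset.card_filter_add_card_filter_not (s := 𝓣) (fun T => v ∈ T)
      rw [← h5, Nat.even_add] at h2
      exact h2.mp (h3 v hv)
    · intro u hu
      have h5 := Finset.card_filter_add_card_filter_not (s := 𝓣.filter (fun T => u ∈ T))
        (fun T => v ∈ T)
      have h6 := h3 u hu
      rw [← h5, Nat.even_add] at h6
      have h7 : (𝓣.filter (fun T => v ∉ T)).filter (fun T => u ∈ T) =
          (𝓣.filter (fun T => u ∈ T)).filter (fun T => v ∉ T) := Finset.filter_comm _ _ _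
      rw [h7]
      apply h6.mp
      rw [Finset.filter_filter]
      exact h4 u hu v hv
  by_contra hne
  obtain ⟨T, hT⟩ := Finset.nonempty_iff_ne_empty.mpr hne
  have hall : ∀ T ∈ 𝓣, T = G := by
    intro T hT
    apply Finset.Subset.antisymm (h1 T hT).1
    intro v hv
    by_contra hvT
    have := key v hv
    rw [Finset.filter_eq_empty_iff] at this
    exact this hT hvT
  have h5 : 𝓣 = {G} := by
    apply Finset.eq_singleton_iff_nonempty_unique_mem.mpr
    exact ⟨⟨T, hT⟩, hall⟩
  rw [h5] at h2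
  simp at h2

theorem condAff_of_condRigid {Δ : Finset (Finset V)} {α : Equiv.Perm V} {d : ℕ}
    (h : CondRigid Δ α d) : CondAff Δ α d := by
  intro G hG hbig v hv 𝓣 h1 h2 _
  by_contra hne
  obtain ⟨T, hT⟩ := Finset.nonempty_iff_ne_empty.mpr hne
  have hall : ∀ T ∈ 𝓣, T = ∅ := by
    intro T hT
    rcases h G hG hbig T (h1 T hT).1 (h1 T hT).2.2 with h5 | h5
    · exact h5
    · exact absurd (h5 ▸ hv) (h1 T hT).2.1
  have h5 : 𝓣 = {∅} := by
    apply Finset.eq_singleton_iff_nonempty_unique_mem.mpr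
    exact ⟨⟨T, hT⟩, hall⟩
  rw [h5] at h2
  simp at h2

end CSLef
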